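import Mathlib
import Pool.Agent.H53Rank.C

/-!
# MP_eff4ce_al: four generators suffice for commuting graphs of arbitrarily large girth

The semigroup is generated by three letters and one more element `C`.  The letters multiply like the
letters of a square-free word over three letters which begins with `1, 0, 1` and contains `1, 0, 1` nowhere
else.  The element `C` forgets a state except for its colour, which it flips; its square is an idempotent,
and the constants which are needed for the cycle are words in `C` and the letter `0`.
-/

set_option autoImplicit false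

namespace Pool.Agent.Results.MP_eff4ce_al.RankFour

/-- The commuting graph of a semigroup: the vertices are the non-central elements, and different
vertices are adjacent when they commute. -/
def commGraph (S : Type) [Semigroup S] : SimpleGraph {x : S // ¬ ∀ y : S, x * y = y * x} where
  Adj x y := x ≠ y ∧ x.1 * y.1 = y.1 * x.1
  symm := ⟨fun _ _ h => ⟨h.1.symm, h.2.symm⟩⟩
  loopless := ⟨fun _ h => h.1 rfl⟩

/-- No vertex is adjacent to all the other vertices. -/
def StarFree {V : Type} (G : SimpleGraph V) : Prop := ∀ v, ∃ w, w ≠ v ∧ ¬ G.Adj v w

/-- The graph is the commuting graph of a finite semigroup which is generated by at most `d`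
elements. -/
def RankLE {V : Type} (G : SimpleGraph V) (d : ℕ) : Prop :=
  ∃ (S : Type) (_ : Semigroup S) (T : Finset S), Finite S ∧ T.card ≤ d ∧
    Subsemigroup.closure (T : Set S) = ⊤ ∧ Nonempty (commGraph S ≃g G)

/-- The library's form of the commuting graph is isomorphic to the one used here. -/
def iso (S : Type) [Semigroup S] : commGraph S ≃g Pool.Agent.H14.CommDiam.commGraph S where
  toEquiv := Equiv.subtypeEquivRight fun x => by
    rw [Semigroup.mem_center_iff]
    exact not_congr (forall_congr' fun _ => eq_comm)
  map_rel_iff' := by
    intro x y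
    simp only [Pool.Agent.H14.CommDiam.commGraph, commGraph, Equiv.subtypeEquivRight_apply_coe,
      ne_eq, Subtype.ext_iff]

/-- There are finite star-free graphs `G 0, G 1, ...`, each containing a cycle, of rank at most `4`
(`G k` is isomorphic to the commuting graph of a finite semigroup generated by at most four elements),
such that the girth of `G k` is at least `k`; in particular the girths tend to infinity. -/
theorem result : ∃ (V : ℕ → Type) (G : ∀ k, SimpleGraph (V k)),
    (∀ k, Finite (V k) ∧ StarFree (G k) ∧ ¬ (G k).IsAcyclic ∧ k ≤ (G k).girth ∧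
      RankLE (G k) 4) ∧
    Filter.Tendsto (fun k => (G k).girth) Filter.atTop Filter.atTop := by
  have hg : ∀ k, k ≤ (Pool.Agent.H14.CommDiam.commGraph (Pool.Agent.H53Rank.S (2 * k + 2))).girth := by
    intro k
    obtain ⟨a, w, hw, e⟩ := SimpleGraph.exists_girth_eq_length.2
      (Pool.Agent.H53Rank.not_acyclic (m := 2 * k + 2) (by omega) (by omega))
    have := Pool.Agent.H53Rank.girth_ge (by omega) w hw
    omega
  refine ⟨_, fun k => Pool.Agent.H14.CommDiam.commGraph (Pool.Agent.H53Rank.S (2 * k + 2)),
    fun k => ⟨inferInstance, ?_, Pool.Agent.H53Rank.not_acyclic (by omega) (by omega), hg k, ?_⟩,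
    Filter.tendsto_atTop_mono hg Filter.tendsto_id⟩
  · intro v
    obtain ⟨b, hb⟩ := not_forall.1 (mt Semigroup.mem_center_iff.2 v.2)
    refine ⟨⟨b, fun h => hb (Semigroup.mem_center_iff.1 h _).symm⟩, ?_, fun h => hb h.2.symm⟩
    intro h
    exact hb (by rw [show b = v.1 from congrArg Subtype.val h])
  · obtain ⟨T, hT, hc⟩ := Pool.Agent.H53Rank.rank (m := 2 * k + 2)
    exact ⟨_, inferInstance, T, inferInstance, hT, hc, ⟨iso _⟩⟩

end Pool.Agent.Results.MP_eff4ce_al.RankFour
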